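import Pool.Agent.Helper58.PB.StZ

/-!
# Project PB: module INT (prime sums in intervals)
-/

set_option autoImplicit false

namespace Pool.Agent.Helper23.PB

open Pool.Agent.Helper23.MV
open Pool.Agent.Helper58.PB (StPsk StInt)
open Pool.Agent.Helper48.BK (th StTh)
open Finset ArithmeticFunction Filter
open Pool.Agent.Helper2.MR (ch)

/-- `∑_{n ≤ x} Λ(n) c(n)` -/
noncomputable def psC (c : PCh) (x : ℕ) : ℂ := ∑ n ∈ Ioc 0 x, ((Λ n : ℝ) : ℂ) * c.ev n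

theorem int_ch (n : ℕ) : ch 0 n = 1 := by simp [ch]

theorem int_norm (c : PCh) (n : ℕ) : ‖((Λ n : ℝ) : ℂ) * c.ev n‖ ≤ Λ n := by
  rw [norm_mul, Complex.norm_real, Real.norm_of_nonneg vonMangoldt_nonneg]
  exact mul_le_of_le_one_right vonMangoldt_nonneg (c.χ.norm_le_one _)

theorem int_ps (c : PCh) (x : ℕ) (hx : 1 ≤ x) {k : ℝ} (hk : 0 < k) (hk1 : k ≤ 1) :
    ‖Ps c 0 (x * (1 + k)) - Ps c 0 x - ((Real.log (1 + k) : ℝ) : ℂ) * psC c x‖ ≤
      Real.log (1 + k) * (k * x * Real.log (2 * x)) := by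
  have hx0 : (0 : ℝ) < x := by exact_mod_cast hx
  set N : ℕ := ⌊(x : ℝ) * (1 + k)⌋₊ with hN
  have hxN : x ≤ N := by
    rw [hN]
    refine Nat.le_floor ?_
    nlinarith
  have hNr : (N : ℝ) ≤ x * (1 + k) := Nat.floor_le (by positivity)
  have hℓ : 0 < Real.log (1 + k) := Real.log_pos (by linarith)
  have e1 : Ps c 0 (x * (1 + k)) =
      (∑ n ∈ Ioc 0 x, ((Λ n : ℝ) : ℂ) * c.ev n * ((Real.log (x * (1 + k) / n) : ℝ) : ℂ)) +
      ∑ n ∈ Ioc x N, ((Λ n : ℝ) : ℂ) * c.ev n * ((Real.log (x * (1 + k) / n) : ℝ) : ℂ) := by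
    rw [Finset.sum_Ioc_consecutive _ (Nat.zero_le x) hxN, Ps]
    refine Finset.sum_congr rfl fun n _ => ?_
    rw [int_ch, mul_one]
  have e2 : Ps c 0 x = ∑ n ∈ Ioc 0 x, ((Λ n : ℝ) : ℂ) * c.ev n * ((Real.log (x / n) : ℝ) : ℂ) := by
    rw [Ps, Nat.floor_natCast]
    refine Finset.sum_congr rfl fun n _ => ?_
    rw [int_ch, mul_one]
  have e3 : Ps c 0 (x * (1 + k)) - Ps c 0 x - ((Real.log (1 + k) : ℝ) : ℂ) * psC c x =
      ∑ n ∈ Ioc x N, ((Λ n : ℝ) : ℂ) * c.ev n * ((Real.log (x * (1 + k) / n) : ℝ) : ℂ) := by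
    rw [e1, e2, psC, Finset.mul_sum]
    have : ∑ n ∈ Ioc 0 x, ((Λ n : ℝ) : ℂ) * c.ev n * ((Real.log (x * (1 + k) / n) : ℝ) : ℂ) =
        (∑ n ∈ Ioc 0 x, ((Λ n : ℝ) : ℂ) * c.ev n * ((Real.log (x / n) : ℝ) : ℂ)) +
        ∑ n ∈ Ioc 0 x, ((Real.log (1 + k) : ℝ) : ℂ) * (((Λ n : ℝ) : ℂ) * c.ev n) := by
      rw [← Finset.sum_add_distrib]
      refine Finset.sum_congr rfl fun n hn => ?_
      have hn0 : (0 : ℝ) < n := by exact_mod_cast (Finset.mem_Ioc.1 hn).1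
      have : Real.log (x * (1 + k) / n) = Real.log (x / n) + Real.log (1 + k) := by
        rw [← Real.log_mul (by positivity) (by positivity)]
        congr 1
        ring
      rw [this]
      push_cast
      ring
    rw [this]
    ring
  rw [e3]
  refine (norm_sum_le _ _).trans ?_
  have h1 : ∀ n ∈ Ioc x N, ‖((Λ n : ℝ) : ℂ) * c.ev n * ((Real.log (x * (1 + k) / n) : ℝ) : ℂ)‖ ≤
      Real.log (2 * x) * Real.log (1 + k) := by
    intro n hn
    obtain ⟨h1, h2⟩ := Finset.mem_Ioc.1 hn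
    have hn0 : (0 : ℝ) < n := by exact_mod_cast (Nat.zero_le x).trans_lt h1
    have hnx : (x : ℝ) ≤ n := by exact_mod_cast h1.le
    have hnN : (n : ℝ) ≤ x * (1 + k) := le_trans (by exact_mod_cast h2) hNr
    rw [norm_mul, Complex.norm_real]
    have hl1 : 0 ≤ Real.log (x * (1 + k) / n) := Real.log_nonneg (by rw [le_div_iff₀ hn0]; linarith)
    have hl2 : Real.log (x * (1 + k) / n) ≤ Real.log (1 + k) := by
      refine Real.log_le_log (by positivity) ?_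
      rw [div_le_iff₀ hn0]
      nlinarith
    rw [Real.norm_of_nonneg hl1]
    refine mul_le_mul (((int_norm c n).trans vonMangoldt_le_log).trans ?_) hl2 hl1 ?_
    · refine Real.log_le_log hn0 ?_
      nlinarith
    · refine Real.log_nonneg ?_
      have : (1 : ℝ) ≤ x := by exact_mod_cast hx
      linarith
  refine (Finset.sum_le_sum h1).trans ?_
  rw [Finset.sum_const, Nat.card_Ioc, nsmul_eq_mul, Nat.cast_sub hxN]
  have h2 : (N : ℝ) - x ≤ k * x := by nlinarith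
  have h3 : 0 ≤ Real.log (2 * x) := by
    refine Real.log_nonneg ?_
    have : (1 : ℝ) ≤ x := by exact_mod_cast hx
    linarith
  have h4 : 0 ≤ Real.log (2 * x) * Real.log (1 + k) := by positivity
  nlinarith [mul_le_mul_of_nonneg_right h2 h4]

theorem int_cpow {p q : ℝ} (hp : 0 < p) (hpq : p ≤ q) {s : ℂ} (hs0 : s ≠ 0) (hs : s.re ≤ 1) :
    ‖((q : ℂ) ^ s - (p : ℂ) ^ s) / s‖ ≤ (q - p) * p ^ (s.re - 1) := by
  have h := integral_cpow (a := p) (b := q) (r := s - 1) (Or.inr ⟨by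
    intro h
    apply hs0
    linear_combination h, by
    rw [Set.uIcc_of_le hpq]
    intro h
    exact absurd h.1 (not_le.2 hp)⟩)
  rw [sub_add_cancel] at h
  rw [← h]
  refine (intervalIntegral.norm_integral_le_of_norm_le_const (C := p ^ (s.re - 1)) ?_).trans ?_
  · intro u hu
    rw [Set.uIoc_of_le hpq] at hu
    rw [Complex.norm_cpow_eq_rpow_re_of_pos (hp.trans hu.1)]
    have : (s - 1).re = s.re - 1 := by simp
    rw [this]
    exact Real.rpow_le_rpow_of_nonpos hp hu.1.le (by linarith)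
  · rw [abs_of_nonneg (by linarith), mul_comm]

/-- the mixed difference of `u^s/s²` -/
theorem int_mix {p q m : ℝ} (hp : 0 < p) (hq : 0 < q) (hm : 0 < m) {s : ℂ} (hs0 : s ≠ 0) :
    (((q * m : ℝ) : ℂ) ^ s - ((p * m : ℝ) : ℂ) ^ s - (q : ℂ) ^ s + (p : ℂ) ^ s) / s ^ 2 =
      (((m : ℂ) ^ s - 1) / s) * (((q : ℂ) ^ s - (p : ℂ) ^ s) / s) := by
  have h1 : ((q * m : ℝ) : ℂ) ^ s = (q : ℂ) ^ s * (m : ℂ) ^ s := by
    rw [Complex.ofReal_mul]
    exact Complex.mul_cpow_ofReal_nonneg hq.le hm.le s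
  have h2 : ((p * m : ℝ) : ℂ) ^ s = (p : ℂ) ^ s * (m : ℂ) ^ s := by
    rw [Complex.ofReal_mul]
    exact Complex.mul_cpow_ofReal_nonneg hp.le hm.le s
  rw [h1, h2]
  field_simp
  ring

theorem int_log {k : ℝ} (hk : 0 < k) (hk1 : k ≤ 1) :
    0 < Real.log (1 + k) ∧ Real.log (1 + k) ≤ k ∧ k ≤ (1 + k) * Real.log (1 + k) ∧
      k / 2 ≤ Real.log (1 + k) := by
  have h0 : 0 < Real.log (1 + k) := Real.log_pos (by linarith)
  have h1 : Real.log (1 + k) ≤ k := by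
    have := Real.log_le_sub_one_of_pos (show 0 < 1 + k by linarith)
    linarith
  have h2 : k ≤ (1 + k) * Real.log (1 + k) := by
    have := Real.one_sub_inv_le_log_of_pos (show 0 < 1 + k by linarith)
    have h3 : (1 + k) * (1 - (1 + k)⁻¹) = k := by
      field_simp
      ring
    nlinarith
  refine ⟨h0, h1, h2, ?_⟩
  nlinarith

/-- sum and integral of `u^{-δ}` -/
theorem int_step {δ : ℝ} (hδ : 0 < δ) (hδ1 : δ < 1) {n : ℝ} (hn : 1 ≤ n) :
    (n + 1) ^ (-δ) ≤ ((n + 1) ^ (1 - δ) - n ^ (1 - δ)) / (1 - δ) ∧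
      ((n + 1) ^ (1 - δ) - n ^ (1 - δ)) / (1 - δ) ≤ n ^ (-δ) := by
  have hn0 : 0 < n := by linarith
  have ha : 0 < 1 - δ := by linarith
  have e1 : n ^ (1 - δ) = n * n ^ (-δ) := by
    rw [sub_eq_add_neg, Real.rpow_add hn0, Real.rpow_one]
  have e2 : (n + 1) ^ (1 - δ) = (n + 1) * (n + 1) ^ (-δ) := by
    rw [sub_eq_add_neg, Real.rpow_add (by linarith), Real.rpow_one]
  constructor
  · rw [le_div_iff₀ ha]
    have h1 : (1 + (-(1 / (n + 1)))) ^ (1 - δ) ≤ 1 + (1 - δ) * (-(1 / (n + 1))) :=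
      rpow_one_add_le_one_add_mul_self (by
        rw [neg_le_neg_iff, div_le_one (by linarith)]
        linarith) ha.le (by linarith)
    have h2 : n ^ (1 - δ) = (n + 1) ^ (1 - δ) * (1 + (-(1 / (n + 1)))) ^ (1 - δ) := by
      rw [← Real.mul_rpow (by linarith) (by
        rw [← sub_eq_add_neg, sub_nonneg, div_le_one (by linarith)]
        linarith)]
      congr 1
      field_simp
      ring
    have h3 : 0 < (n + 1) ^ (1 - δ) := by positivity
    have h4 := mul_le_mul_of_nonneg_left h1 h3.le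
    rw [← h2] at h4
    have h5 : (n + 1) ^ (1 - δ) * (1 + (1 - δ) * (-(1 / (n + 1)))) =
        (n + 1) ^ (1 - δ) - (1 - δ) * (n + 1) ^ (-δ) := by
      rw [e2]
      field_simp
      ring
    rw [h5] at h4
    linarith
  · rw [div_le_iff₀ ha]
    have h1 : (1 + 1 / n) ^ (1 - δ) ≤ 1 + (1 - δ) * (1 / n) :=
      rpow_one_add_le_one_add_mul_self (by
        have : 0 < 1 / n := by positivity
        linarith) ha.le (by linarith)
    have h2 : (n + 1) ^ (1 - δ) = n ^ (1 - δ) * (1 + 1 / n) ^ (1 - δ) := by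
      rw [← Real.mul_rpow (by linarith) (by positivity)]
      congr 1
      field_simp
    have h3 : 0 < n ^ (1 - δ) := by positivity
    have h4 := mul_le_mul_of_nonneg_left h1 h3.le
    rw [← h2] at h4
    have h5 : n ^ (1 - δ) * (1 + (1 - δ) * (1 / n)) = n ^ (1 - δ) + (1 - δ) * n ^ (-δ) := by
      rw [e1]
      field_simp
    rw [h5] at h4
    linarith

theorem int_sum {δ : ℝ} (hδ : 0 < δ) (hδ1 : δ < 1) {x : ℕ} (hx : 1 ≤ x) (l : ℕ) :
    ∑ n ∈ Ioc x (x + l), (n : ℝ) ^ (-δ) ≤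
      (((x + l : ℕ) : ℝ) ^ (1 - δ) - (x : ℝ) ^ (1 - δ)) / (1 - δ) ∧
    (((x + l : ℕ) : ℝ) ^ (1 - δ) - (x : ℝ) ^ (1 - δ)) / (1 - δ) ≤
      ∑ n ∈ Ioc x (x + l), (n : ℝ) ^ (-δ) + ((x : ℝ) ^ (-δ) - ((x + l : ℕ) : ℝ) ^ (-δ)) := by
  induction l with
  | zero => simp
  | succ l ih =>
    have hs : ∑ n ∈ Ioc x (x + (l + 1)), (n : ℝ) ^ (-δ) =
        ∑ n ∈ Ioc x (x + l), (n : ℝ) ^ (-δ) + ((x + l : ℕ) + 1 : ℝ) ^ (-δ) := by
      rw [← add_assoc, Finset.sum_Ioc_succ_top (by omega)]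
      push_cast
      rfl
    have hn : (1 : ℝ) ≤ ((x + l : ℕ) : ℝ) := by
      have : 1 ≤ x + l := by omega
      exact_mod_cast this
    have h := int_step hδ hδ1 hn
    have e : ((x + (l + 1) : ℕ) : ℝ) = ((x + l : ℕ) : ℝ) + 1 := by push_cast; ring
    rw [hs, e]
    have e2 : ((((x + l : ℕ) : ℝ) + 1) ^ (1 - δ) - (x : ℝ) ^ (1 - δ)) / (1 - δ) =
        ((((x + l : ℕ) : ℝ)) ^ (1 - δ) - (x : ℝ) ^ (1 - δ)) / (1 - δ) +
        ((((x + l : ℕ) : ℝ) + 1) ^ (1 - δ) - ((x + l : ℕ) : ℝ) ^ (1 - δ)) / (1 - δ) := by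
      rw [← add_div]
      congr 1
      ring
    rw [e2]
    obtain ⟨i1, i2⟩ := ih
    obtain ⟨j1, j2⟩ := h
    constructor <;> linarith


/-- ratio bounds for real exponents -/
theorem int_A {k a : ℝ} (hk : 0 < k) (hk1 : k ≤ 1) (ha : 0 < a) (ha1 : a ≤ 1) :
    1 ≤ ((1 + k) ^ a - 1) / a / Real.log (1 + k) ∧
      ((1 + k) ^ a - 1) / a / Real.log (1 + k) ≤ 1 + k := by
  obtain ⟨h0, h1, h2, -⟩ := int_log hk hk1
  have h3 : (1 + k) ^ a ≤ 1 + a * k := rpow_one_add_le_one_add_mul_self (by linarith) ha.le ha1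
  have h4 : 1 + a * Real.log (1 + k) ≤ (1 + k) ^ a := by
    rw [Real.rpow_def_of_pos (by linarith)]
    have := Real.add_one_le_exp (Real.log (1 + k) * a)
    linarith
  constructor
  · rw [le_div_iff₀ h0, le_div_iff₀ ha]
    linarith
  · rw [div_le_iff₀ h0, div_le_iff₀ ha]
    have := mul_le_mul_of_nonneg_left h2 ha.le
    linarith

/-- the factor of a zero -/
noncomputable def fA (k : ℝ) (ρ : ℂ) : ℂ := (((1 + k : ℝ) : ℂ) ^ ρ - 1) / ρ / ((Real.log (1 + k) : ℝ) : ℂ)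

/-- the factor of a zero -/
noncomputable def fB (x y : ℕ) (ρ : ℂ) : ℂ := (((y : ℝ) : ℂ) ^ ρ - ((x : ℝ) : ℂ) ^ ρ) / ρ

open Classical in
theorem int_core (c : PCh) (R : Finset ℂ) (hR : ∀ ρ ∈ R, ρ ≠ 0) (x l : ℕ) (hx : 1 ≤ x) {k ε : ℝ}
    (hk : 0 < k) (hk1 : k ≤ 1) (hε : 0 ≤ ε)
    (H : ∀ u : ℝ, (x : ℝ) ≤ u → u ≤ ((x + l : ℕ) : ℝ) * (1 + k) →
      ‖Ps c 0 u - (if c.χ = 1 then (u : ℂ) else 0) +
        ∑ ρ ∈ R, (mz c ρ : ℂ) * (u : ℂ) ^ ρ / ρ ^ 2‖ ≤ u * ε) :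
    ‖(psC c (x + l) - psC c x) - (if c.χ = 1 then (l : ℂ) else 0) +
      ∑ ρ ∈ R, (mz c ρ : ℂ) * (fA k ρ * fB x (x + l) ρ)‖ ≤
      l * k + 2 * (k * ((x + l : ℕ) : ℝ) * Real.log (2 * ((x + l : ℕ) : ℝ))) +
        16 * (((x + l : ℕ) : ℝ) * ε / k) := by
  obtain ⟨h0, h1, h2, h3⟩ := int_log hk hk1
  set ℓ : ℝ := Real.log (1 + k) with hℓ
  set y : ℕ := x + l with hy
  have hx0 : (0 : ℝ) < x := by exact_mod_cast hx
  have hx1 : (1 : ℝ) ≤ x := by exact_mod_cast hx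
  have hxy : (x : ℝ) ≤ y := by
    have : x ≤ y := by omega
    exact_mod_cast this
  have hy0 : (0 : ℝ) < y := by linarith
  have hyl : (y : ℝ) - x = l := by rw [hy]; push_cast; ring
  have hℓc : ((ℓ : ℝ) : ℂ) ≠ 0 := by
    rw [Ne, Complex.ofReal_eq_zero]
    exact h0.ne'
  -- the four points
  set E : ℝ → ℂ := fun u => Ps c 0 u - (if c.χ = 1 then (u : ℂ) else 0) +
        ∑ ρ ∈ R, (mz c ρ : ℂ) * (u : ℂ) ^ ρ / ρ ^ 2 with hE
  have E1 : ‖E (y * (1 + k))‖ ≤ 2 * y * ε := by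
    refine (H _ (by nlinarith) le_rfl).trans ?_
    have := mul_le_mul_of_nonneg_right (show (y : ℝ) * (1 + k) ≤ 2 * y by nlinarith) hε
    linarith
  have E2 : ‖E y‖ ≤ 2 * y * ε := by
    refine (H _ hxy (by nlinarith)).trans ?_
    nlinarith [mul_nonneg hy0.le hε]
  have E3 : ‖E (x * (1 + k))‖ ≤ 2 * y * ε := by
    refine (H _ (by nlinarith) (by nlinarith)).trans ?_
    have := mul_le_mul_of_nonneg_right (show (x : ℝ) * (1 + k) ≤ 2 * y by nlinarith) hε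
    linarith
  have E4 : ‖E x‖ ≤ 2 * y * ε := by
    refine (H _ le_rfl (by nlinarith)).trans ?_
    have := mul_le_mul_of_nonneg_right (show (x : ℝ) ≤ 2 * y by linarith) hε
    linarith
  have r1 := int_ps c y (by omega) hk hk1
  have r2 := int_ps c x hx hk hk1
  rw [← hℓ] at r1 r2
  set r_y := Ps c 0 (y * (1 + k)) - Ps c 0 y - ((ℓ : ℝ) : ℂ) * psC c y with hry
  set r_x := Ps c 0 (x * (1 + k)) - Ps c 0 x - ((ℓ : ℝ) : ℂ) * psC c x with hrx
  have hlogxy : Real.log (2 * (x : ℝ)) ≤ Real.log (2 * (y : ℝ)) :=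
    Real.log_le_log (by positivity) (by linarith)
  have hlogx : 0 ≤ Real.log (2 * (x : ℝ)) := Real.log_nonneg (by linarith)
  have r2' : ‖r_x‖ ≤ ℓ * (k * y * Real.log (2 * y)) := by
    refine r2.trans (mul_le_mul_of_nonneg_left ?_ h0.le)
    exact mul_le_mul (mul_le_mul_of_nonneg_left hxy hk.le) hlogxy hlogx (by positivity)
  -- identity
  have hmix : ∑ ρ ∈ R, (mz c ρ : ℂ) * (fA k ρ * fB x y ρ) =
      (∑ ρ ∈ R, (mz c ρ : ℂ) * ((y * (1 + k) : ℝ) : ℂ) ^ ρ / ρ ^ 2 -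
        ∑ ρ ∈ R, (mz c ρ : ℂ) * ((x * (1 + k) : ℝ) : ℂ) ^ ρ / ρ ^ 2 -
        ∑ ρ ∈ R, (mz c ρ : ℂ) * ((y : ℝ) : ℂ) ^ ρ / ρ ^ 2 +
        ∑ ρ ∈ R, (mz c ρ : ℂ) * ((x : ℝ) : ℂ) ^ ρ / ρ ^ 2) / ℓ := by
    rw [← Finset.sum_sub_distrib, ← Finset.sum_sub_distrib, ← Finset.sum_add_distrib,
      Finset.sum_div]
    refine Finset.sum_congr rfl fun ρ hρ => ?_
    have h := int_mix hx0 hy0 (show 0 < 1 + k by linarith) (hR ρ hρ)
    have e : (mz c ρ : ℂ) * ((y * (1 + k) : ℝ) : ℂ) ^ ρ / ρ ^ 2 -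
        (mz c ρ : ℂ) * ((x * (1 + k) : ℝ) : ℂ) ^ ρ / ρ ^ 2 -
        (mz c ρ : ℂ) * ((y : ℝ) : ℂ) ^ ρ / ρ ^ 2 + (mz c ρ : ℂ) * ((x : ℝ) : ℂ) ^ ρ / ρ ^ 2 =
        (mz c ρ : ℂ) * ((((y * (1 + k) : ℝ) : ℂ) ^ ρ - ((x * (1 + k) : ℝ) : ℂ) ^ ρ -
          ((y : ℝ) : ℂ) ^ ρ + ((x : ℝ) : ℂ) ^ ρ) / ρ ^ 2) := by ring
    rw [e, h, fA, fB, ← hℓ]
    ring
  have htriv : (if c.χ = 1 then ((y * (1 + k) : ℝ) : ℂ) else 0) -
      (if c.χ = 1 then ((x * (1 + k) : ℝ) : ℂ) else 0) - (if c.χ = 1 then ((y : ℝ) : ℂ) else 0) +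
      (if c.χ = 1 then ((x : ℝ) : ℂ) else 0) = (if c.χ = 1 then ((l * k : ℝ) : ℂ) else 0) := by
    split_ifs
    · rw [← hyl]
      push_cast
      ring
    · ring
  have hid : (psC c y - psC c x) - (if c.χ = 1 then (l : ℂ) else 0) +
      ∑ ρ ∈ R, (mz c ρ : ℂ) * (fA k ρ * fB x y ρ) =
      (E (y * (1 + k)) - E y - E (x * (1 + k)) + E x - r_y + r_x +
        (if c.χ = 1 then ((l * (k - ℓ) : ℝ) : ℂ) else 0)) / ℓ := by
    rw [hmix, eq_div_iff hℓc]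
    have e1 : (if c.χ = 1 then ((l * (k - ℓ) : ℝ) : ℂ) else 0) =
        (if c.χ = 1 then ((l * k : ℝ) : ℂ) else 0) - (if c.χ = 1 then (l : ℂ) else 0) * ℓ := by
      split_ifs
      · push_cast
        ring
      · ring
    rw [e1, ← htriv, hry, hrx, hE]
    simp only
    rw [add_mul, div_mul_cancel₀ _ hℓc]
    push_cast
    ring
  rw [hid, norm_div, Complex.norm_real, Real.norm_of_nonneg h0.le, div_le_iff₀ h0]
  have ht : ‖(if c.χ = 1 then ((l * (k - ℓ) : ℝ) : ℂ) else 0)‖ ≤ l * (k * ℓ) := by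
    have hl0 : (0 : ℝ) ≤ l := Nat.cast_nonneg _
    split_ifs
    · rw [Complex.norm_real, Real.norm_of_nonneg (mul_nonneg hl0 (by linarith))]
      exact mul_le_mul_of_nonneg_left (by linarith) hl0
    · rw [norm_zero]
      positivity
  have hE0 : 8 * (y * ε) ≤ 16 * (y * ε / k) * ℓ := by
    have h5 : 0 ≤ y * ε := by positivity
    have h6 : 16 * (y * ε / k) * ℓ = (y * ε) * (16 * ℓ / k) := by
      field_simp
    have h7 : 8 ≤ 16 * ℓ / k := by
      rw [le_div_iff₀ hk]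
      linarith
    rw [h6]
    nlinarith
  calc ‖E (y * (1 + k)) - E y - E (x * (1 + k)) + E x - r_y + r_x +
        (if c.χ = 1 then ((l * (k - ℓ) : ℝ) : ℂ) else 0)‖
      ≤ ‖E (y * (1 + k))‖ + ‖E y‖ + ‖E (x * (1 + k))‖ + ‖E x‖ + ‖r_y‖ + ‖r_x‖ +
        ‖(if c.χ = 1 then ((l * (k - ℓ) : ℝ) : ℂ) else 0)‖ := by
        refine (norm_add_le _ _).trans (add_le_add ?_ le_rfl)
        refine (norm_add_le _ _).trans (add_le_add ?_ le_rfl)
        refine (norm_sub_le _ _).trans (add_le_add ?_ le_rfl)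
        refine (norm_add_le _ _).trans (add_le_add ?_ le_rfl)
        refine (norm_sub_le _ _).trans (add_le_add ?_ le_rfl)
        exact norm_sub_le _ _
    _ ≤ _ := by
        nlinarith

theorem fA_real {k a : ℝ} (hk : 0 < k) (hk1 : k ≤ 1) (ha : 0 < a) (ha1 : a ≤ 1) :
    ‖fA k (a : ℂ) - 1‖ ≤ k := by
  obtain ⟨h1, h2⟩ := int_A hk hk1 ha ha1
  have e : fA k (a : ℂ) - 1 = ((((1 + k) ^ a - 1) / a / Real.log (1 + k) - 1 : ℝ) : ℂ) := by
    rw [fA, ← Complex.ofReal_cpow (by linarith)]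
    push_cast
    ring
  rw [e, Complex.norm_real, Real.norm_of_nonneg (by linarith)]
  linarith

theorem fA_bound {k : ℝ} (hk : 0 < k) (hk1 : k ≤ 1) {s : ℂ} (hs0 : s ≠ 0) (hs : s.re ≤ 1) :
    ‖fA k s‖ ≤ 2 := by
  obtain ⟨h0, h1, h2, h3⟩ := int_log hk hk1
  have h := int_cpow (p := 1) (q := 1 + k) one_pos (by linarith) hs0 hs
  rw [Complex.ofReal_one, Complex.one_cpow, Real.one_rpow] at h
  rw [fA, norm_div, Complex.norm_real, Real.norm_of_nonneg h0.le, div_le_iff₀ h0]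
  linarith

theorem fB_bound {x y : ℕ} (hx : 1 ≤ x) (hxy : x ≤ y) {s : ℂ} (hs0 : s ≠ 0) (hs : s.re ≤ 1) :
    ‖fB x y s‖ ≤ ((y : ℝ) - x) * (x : ℝ) ^ (s.re - 1) :=
  int_cpow (by exact_mod_cast hx) (by exact_mod_cast hxy) hs0 hs

theorem fB_real {x : ℕ} (hx : 1 ≤ x) (l : ℕ) {δ : ℝ} (hδ : 0 < δ) (hδ1 : δ < 1) :
    ‖fB x (x + l) ((1 : ℂ) - (δ : ℂ)) - ((∑ n ∈ Ioc x (x + l), (n : ℝ) ^ (-δ) : ℝ) : ℂ)‖ ≤ 1 := by
  obtain ⟨h1, h2⟩ := int_sum hδ hδ1 hx l
  have hx1 : (1 : ℝ) ≤ x := by exact_mod_cast hx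
  have e : fB x (x + l) ((1 : ℂ) - (δ : ℂ)) - ((∑ n ∈ Ioc x (x + l), (n : ℝ) ^ (-δ) : ℝ) : ℂ) =
      (((((x + l : ℕ) : ℝ) ^ (1 - δ) - (x : ℝ) ^ (1 - δ)) / (1 - δ) -
        ∑ n ∈ Ioc x (x + l), (n : ℝ) ^ (-δ) : ℝ) : ℂ) := by
    rw [fB, show (1 : ℂ) - (δ : ℂ) = ((1 - δ : ℝ) : ℂ) by push_cast; ring,
      ← Complex.ofReal_cpow (by positivity), ← Complex.ofReal_cpow (by positivity)]
    push_cast
    ring
  rw [e, Complex.norm_real, Real.norm_of_nonneg (by linarith)]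
  have h3 : (x : ℝ) ^ (-δ) ≤ 1 := Real.rpow_le_one_of_one_le_of_nonpos hx1 (by linarith)
  have h4 : 0 ≤ ((x + l : ℕ) : ℝ) ^ (-δ) := by positivity
  linarith


theorem int_mwt_sum (o : Option (PCh × ℝ)) (c : PCh) (x l : ℕ) :
    (∑ n ∈ Ioc x (x + l), ((mwt o c n : ℝ) : ℂ)) = by
      classical exact (if c.χ = 1 then (l : ℂ) else 0) -
        (match o with
          | none => 0
          | some (e, δ) => if c = e then ((∑ n ∈ Ioc x (x + l), (n : ℝ) ^ (-δ) : ℝ) : ℂ) else 0) := by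
  classical
  rcases o with _ | ⟨e, δ⟩
  · simp only [mwt]
    split_ifs
    · simp
    · simp
  · simp only [mwt]
    by_cases h1 : c.χ = 1 <;> by_cases h2 : c = e <;> simp [h1, h2]

/-- the zeros and the main terms -/
theorem int_two (hFin : StFin) (o : Option (PCh × ℝ)) (c : PCh) {η X k : ℝ} (hη : 0 < η)
    (hη1 : η ≤ 1 / 100) (hX : 2 ≤ X) (hok : OKb o η) (x l : ℕ) (hx : √X ≤ x) (hk : 0 < k)
    (hk1 : k ≤ 1) :
    ‖(∑ n ∈ Ioc x (x + l), ((mwt o c n : ℝ) : ℂ)) -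
      (by classical exact (if c.χ = 1 then (l : ℂ) else 0)) +
      ∑ ρ ∈ Rz c η X 0, (mz c ρ : ℂ) * (fA k ρ * fB x (x + l) ρ)‖ ≤
      2 * l * ZS o c (2 * η) X (√X) + l * k + 1 := by
  classical
  have hX0 : 0 < X := by linarith
  have hsX : 1 < √X := by
    rw [Real.lt_sqrt (by norm_num)]
    linarith
  have hx1 : (1 : ℝ) ≤ x := by linarith
  have hxn : 1 ≤ x := by exact_mod_cast hx1
  have hl0 : (0 : ℝ) ≤ l := Nat.cast_nonneg _
  have hyl : (((x + l : ℕ) : ℝ)) - x = l := by push_cast; ring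
  have hsub : Rz c η X 0 ⊆ ZF c (2 * η) X := Finset.filter_subset _ _
  have hz : ∀ ρ ∈ Rz c η X 0, ρ ≠ 0 ∧ ρ.re ≤ 1 := by
    intro ρ hρ
    have h1 := (hFin.2.1 c (2 * η) X ρ (by linarith)).1 (hsub hρ)
    have h2 : 1 / 2 ≤ ρ.re := by linarith [h1.2.1]
    refine ⟨?_, (hFin.2.2 c ρ h1.1 h2).1.le⟩
    rintro rfl
    simp at h2
    linarith
  set T : ℂ → ℂ := fun ρ => (mz c ρ : ℂ) * (fA k ρ * fB x (x + l) ρ) with hT
  have hTb : ∀ ρ ∈ Rz c η X 0, ‖T ρ‖ ≤ 2 * l * ((mz c ρ : ℝ) * (√X) ^ (ρ.re - 1)) := by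
    intro ρ hρ
    obtain ⟨h1, h2⟩ := hz ρ hρ
    have hA := fA_bound hk hk1 h1 h2
    have hB := fB_bound hxn (Nat.le_add_right x l) h1 h2
    rw [hyl] at hB
    have hB2 : (x : ℝ) ^ (ρ.re - 1) ≤ (√X) ^ (ρ.re - 1) :=
      Real.rpow_le_rpow_of_nonpos (by linarith) hx (by linarith)
    have hB3 : ‖fB x (x + l) ρ‖ ≤ l * (√X) ^ (ρ.re - 1) :=
      hB.trans (mul_le_mul_of_nonneg_left hB2 hl0)
    rw [hT]
    simp only
    rw [norm_mul, norm_mul, Complex.norm_natCast]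
    have h3 : ‖fA k ρ‖ * ‖fB x (x + l) ρ‖ ≤ 2 * (l * (√X) ^ (ρ.re - 1)) :=
      mul_le_mul hA hB3 (norm_nonneg _) (by norm_num)
    have h4 := mul_le_mul_of_nonneg_left h3 (Nat.cast_nonneg (α := ℝ) (mz c ρ))
    linarith
  -- the zeros of `Zex`
  have hZ : ∀ R' ⊆ Rz c η X 0, (R' ⊆ Zex o c (2 * η) X) →
      ‖∑ ρ ∈ R', T ρ‖ ≤ 2 * l * ZS o c (2 * η) X (√X) := by
    intro R' h1 h2
    refine (norm_sum_le _ _).trans ?_
    refine (Finset.sum_le_sum fun ρ hρ => hTb ρ (h1 hρ)).trans ?_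
    rw [← Finset.mul_sum, ZS]
    refine mul_le_mul_of_nonneg_left ?_ (by positivity)
    exact Finset.sum_le_sum_of_subset_of_nonneg h2 fun _ _ _ => by positivity
  rw [int_mwt_sum]
  rcases o with _ | ⟨e, δ⟩
  · have h1 : Rz c η X 0 ⊆ Zex none c (2 * η) X := by
      intro ρ hρ
      rw [Zex, Finset.mem_filter]
      exact ⟨hsub hρ, fun e δ h => by simp at h⟩
    have h2 := hZ _ (Finset.Subset.refl _) h1
    have e1 : (if c.χ = 1 then (l : ℂ) else 0) - 0 - (if c.χ = 1 then (l : ℂ) else 0) +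
        ∑ ρ ∈ Rz c η X 0, T ρ = ∑ ρ ∈ Rz c η X 0, T ρ := by ring
    refine (le_of_eq (congrArg norm ?_)).trans (h2.trans ?_)
    · exact e1
    · have : 0 ≤ l * k := by positivity
      linarith
  · by_cases hce : c = e
    · obtain ⟨hRe, hδ, hδη, hL, hm⟩ := hok e δ rfl
      subst hce
      set ρ₀ : ℂ := 1 - (δ : ℂ) with hρ₀
      have hδ1 : δ < 1 := by linarith
      have hmem : ρ₀ ∈ Rz c η X 0 := by
        rw [Rz, Finset.mem_filter]
        refine ⟨(hFin.2.1 c (2 * η) X ρ₀ (by linarith)).2 ⟨hL, ?_, ?_⟩, ?_⟩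
        · simp [hρ₀]
          linarith
        · simp [hρ₀]
          linarith
        · simp [hρ₀]
          positivity
      have hsplit : ∑ ρ ∈ Rz c η X 0, T ρ = T ρ₀ + ∑ ρ ∈ (Rz c η X 0).erase ρ₀, T ρ :=
        (Finset.add_sum_erase _ _ hmem).symm
      have h1 : (Rz c η X 0).erase ρ₀ ⊆ Zex (some (c, δ)) c (2 * η) X := by
        intro ρ hρ
        rw [Zex, Finset.mem_filter]
        refine ⟨hsub (Finset.mem_of_mem_erase hρ), ?_⟩
        rintro e' δ' h ⟨-, h2⟩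
        simp only [Option.some.injEq, Prod.mk.injEq] at h
        obtain ⟨-, rfl⟩ := h
        exact (Finset.ne_of_mem_erase hρ) h2
      have h2 := hZ _ (Finset.erase_subset _ _) h1
      set S : ℝ := ∑ n ∈ Ioc x (x + l), (n : ℝ) ^ (-δ) with hS
      have hT0 : ‖T ρ₀ - (S : ℂ)‖ ≤ l * k + 1 := by
        have hA := fA_real hk hk1 (show 0 < 1 - δ by linarith) (by linarith)
        have hB := fB_real hxn l hδ hδ1
        have e0 : ((1 - δ : ℝ) : ℂ) = ρ₀ := by rw [hρ₀]; push_cast; ring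
        rw [e0] at hA
        have hr : ρ₀.re ≤ 1 := by
          simp [hρ₀]
          linarith
        have hB2 := fB_bound hxn (Nat.le_add_right x l) (hz ρ₀ hmem).1 hr
        rw [hyl] at hB2
        have hB3 : ‖fB x (x + l) ρ₀‖ ≤ l := by
          refine hB2.trans ?_
          have : (x : ℝ) ^ (ρ₀.re - 1) ≤ 1 :=
            Real.rpow_le_one_of_one_le_of_nonpos hx1 (by linarith)
          nlinarith
        have e1 : T ρ₀ - (S : ℂ) = (fA k ρ₀ - 1) * fB x (x + l) ρ₀ + (fB x (x + l) ρ₀ - (S : ℂ)) := by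
          rw [hT]
          simp only
          rw [hm]
          push_cast
          ring
        rw [e1]
        refine (norm_add_le _ _).trans (add_le_add ?_ hB)
        rw [norm_mul, mul_comm (l : ℝ)]
        exact mul_le_mul hA hB3 (norm_nonneg _) hk.le
      rw [hsplit]
      simp only [if_true]
      have e2 : (if c.χ = 1 then (l : ℂ) else 0) - (S : ℂ) - (if c.χ = 1 then (l : ℂ) else 0) +
          (T ρ₀ + ∑ ρ ∈ (Rz c η X 0).erase ρ₀, T ρ) =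
          (T ρ₀ - (S : ℂ)) + ∑ ρ ∈ (Rz c η X 0).erase ρ₀, T ρ := by ring
      refine (le_of_eq (congrArg norm e2)).trans ((norm_add_le _ _).trans ?_)
      linarith
    · have h1 : Rz c η X 0 ⊆ Zex (some (e, δ)) c (2 * η) X := by
        intro ρ hρ
        rw [Zex, Finset.mem_filter]
        refine ⟨hsub hρ, ?_⟩
        rintro e' δ' h ⟨h2, -⟩
        simp only [Option.some.injEq, Prod.mk.injEq] at h
        exact hce (h2.trans h.1.symm)
      have h2 := hZ _ (Finset.Subset.refl _) h1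
      simp only [if_neg hce]
      have e1 : (if c.χ = 1 then (l : ℂ) else 0) - 0 - (if c.χ = 1 then (l : ℂ) else 0) +
          ∑ ρ ∈ Rz c η X 0, T ρ = ∑ ρ ∈ Rz c η X 0, T ρ := by ring
      refine (le_of_eq (congrArg norm e1)).trans (h2.trans ?_)
      have : 0 ≤ l * k := by positivity
      linarith


theorem int_ZS (o : Option (PCh × ℝ)) (c : PCh) (η T Y : ℝ) (hY : 0 ≤ Y) : 0 ≤ ZS o c η T Y :=
  Finset.sum_nonneg fun _ _ => by positivity

theorem int_mwt_le (o : Option (PCh × ℝ)) (c : PCh) {η : ℝ} (hok : OKb o η) {n : ℕ} (hn : 1 ≤ n) :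
    |mwt o c n| ≤ 2 := by
  classical
  have hn1 : (1 : ℝ) ≤ n := by exact_mod_cast hn
  have h1 : |(if c.χ = 1 then (1 : ℝ) else 0)| ≤ 1 := by split_ifs <;> simp
  rcases o with _ | ⟨e, δ⟩
  · simp only [mwt]
    rw [sub_zero]
    linarith
  · obtain ⟨-, hδ, -, -, -⟩ := hok e δ rfl
    simp only [mwt]
    refine (abs_sub _ _).trans ?_
    have h2 : |(if c = e then (n : ℝ) ^ (-δ) else 0)| ≤ 1 := by
      split_ifs
      · rw [abs_of_nonneg (by positivity)]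
        exact Real.rpow_le_one_of_one_le_of_nonpos hn1 (by linarith)
      · simp
    linarith

theorem int_ev {ε : ℝ} (hε : 0 < ε) (K : ℝ) : ∀ᶠ X : ℝ in atTop, K * (Real.log X + 1) ≤ X ^ ε := by
  have h1 : (fun X : ℝ => K * (Real.log X + 1)) =o[atTop] fun X : ℝ => X ^ ε := by
    refine Asymptotics.IsLittleO.const_mul_left ?_ K
    refine (isLittleO_log_rpow_atTop hε).add ?_
    rw [Asymptotics.isLittleO_const_left]
    right
    have := tendsto_rpow_atTop hε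
    exact tendsto_norm_atTop_atTop.comp this
  have h2 := h1.bound one_pos
  filter_upwards [h2, eventually_ge_atTop (1 : ℝ)] with X h3 h4
  have h5 : 0 ≤ X ^ ε := by positivity
  rw [one_mul, Real.norm_of_nonneg h5] at h3
  exact (le_abs_self _).trans h3

/-- the case `√X ≤ x` -/
theorem int_case (hFin : StFin) {Cθ : ℝ} (hCθ : 0 < Cθ)
    (hθ0 : ∀ n, 0 ≤ th n ∧ th n ≤ Λ n ∧ th n ≤ Real.log n)
    (hθ : ∀ x : ℕ, 3 ≤ x → ∑ n ∈ Ioc 0 x, (Λ n - th n) ≤ Cθ * √x * Real.log x ^ 2)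
    {η K X : ℝ} (hη : 0 < η) (hη1 : η ≤ 1 / 100) (hK : 2 ≤ K) (hX : 10 ≤ X)
    (h1 : 20 * K * (Real.log X + 1) ≤ X ^ (3 * η / 100))
    (h2 : (Cθ + 1) * K * (Real.log X + 1) ≤ X ^ (1 / 10 : ℝ))
    (o : Option (PCh × ℝ)) (c : PCh) (hok : OKb o η)
    (hpsk : ∀ x : ℝ, √X ≤ x → x ≤ X ^ (2 * K) →
      ‖Ps c 0 x - (by classical exact (if c.χ = 1 then (x : ℂ) else 0)) +
        ∑ ρ ∈ Rz c η X 0, (mz c ρ : ℂ) * (x : ℂ) ^ ρ / ρ ^ 2‖ ≤ x * X ^ (-(13 * η / 50)))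
    (x l : ℕ) (hx : √X ≤ x) (hy1 : X ^ (3 / 5 : ℝ) ≤ ((x + l : ℕ) : ℝ))
    (hy2 : ((x + l : ℕ) : ℝ) ≤ X ^ K) :
    ‖∑ n ∈ Ioc x (x + l), (((th n : ℝ) : ℂ) * c.ev n - ((mwt o c n : ℝ) : ℂ))‖ ≤
      2 * l * ZS o c (2 * η) X (√X) + 3 * (((x + l : ℕ) : ℝ) * X ^ (-(η / 10))) := by
  classical
  have hX0 : 0 < X := by linarith
  have hX1 : 1 ≤ X := by linarith
  have hsX : 1 < √X := by
    rw [Real.lt_sqrt (by norm_num)]
    linarith
  have hx1 : (1 : ℝ) ≤ x := by linarith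
  have hxn : 1 ≤ x := by exact_mod_cast hx1
  have hl0 : (0 : ℝ) ≤ l := Nat.cast_nonneg _
  set y : ℕ := x + l with hy
  have hxy : (x : ℝ) ≤ y := by
    have : x ≤ y := by omega
    exact_mod_cast this
  have hyl : (y : ℝ) - x = l := by rw [hy]; push_cast; ring
  have hy0 : (0 : ℝ) < y := by linarith
  have hLX : 1 ≤ Real.log X := by
    rw [Real.le_log_iff_exp_le hX0]
    have := Real.exp_one_lt_d9
    linarith
  set k : ℝ := X ^ (-(13 * η / 100)) with hk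
  have hk0 : 0 < k := by positivity
  have hk1 : k ≤ 1 := Real.rpow_le_one_of_one_le_of_nonpos hX1 (by linarith)
  have hεk : X ^ (-(13 * η / 50)) / k = k := by
    rw [div_eq_iff hk0.ne', hk, ← Real.rpow_add hX0]
    congr 1
    ring
  have hR : ∀ ρ ∈ Rz c η X 0, ρ ≠ 0 := by
    intro ρ hρ
    have h1 := (hFin.2.1 c (2 * η) X ρ (by linarith)).1 (Finset.filter_subset _ _ hρ)
    rintro rfl
    have := h1.2.1
    simp at this
    linarith
  have hXK : 2 ≤ X ^ K := by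
    calc (2 : ℝ) ≤ X := by linarith
      _ = X ^ (1 : ℝ) := (Real.rpow_one X).symm
      _ ≤ X ^ K := Real.rpow_le_rpow_of_exponent_le hX1 (by linarith)
  have hcore := int_core c (Rz c η X 0) hR x l hxn hk0 hk1 (ε := X ^ (-(13 * η / 50)))
    (by positivity) (by
      intro u hu1 hu2
      refine hpsk u (hx.trans hu1) (hu2.trans ?_)
      calc ((x + l : ℕ) : ℝ) * (1 + k) ≤ X ^ K * X ^ K := by
            refine mul_le_mul hy2 (by linarith) (by linarith) (by positivity)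
        _ = X ^ (2 * K) := by rw [← Real.rpow_add hX0]; congr 1; ring)
  rw [← hy] at hcore
  have htwo := int_two hFin o c hη hη1 (by linarith) hok x l hx hk0 hk1
  rw [← hy] at htwo
  -- prime powers
  have hy3 : 3 ≤ y := by
    have h5 : (3 : ℝ) ≤ y := by
      refine le_trans ?_ hy1
      calc (3 : ℝ) ≤ 10 ^ (3 / 5 : ℝ) := by
            rw [← Real.rpow_le_rpow_iff (by norm_num) (by positivity) (by norm_num : (0 : ℝ) < 5),
              ← Real.rpow_mul (by norm_num)]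
            norm_num
        _ ≤ X ^ (3 / 5 : ℝ) := Real.rpow_le_rpow (by norm_num) hX (by norm_num)
    exact_mod_cast h5
  have hpp : ‖∑ n ∈ Ioc x y, (((Λ n : ℝ) : ℂ) * c.ev n - ((th n : ℝ) : ℂ) * c.ev n)‖ ≤
      Cθ * √y * Real.log y ^ 2 := by
    refine (norm_sum_le _ _).trans (le_trans ?_ (hθ y hy3))
    refine le_trans (Finset.sum_le_sum (g := fun n => Λ n - th n) ?_) ?_
    · intro n _
      have e : ((Λ n : ℝ) : ℂ) * c.ev n - ((th n : ℝ) : ℂ) * c.ev n =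
          ((Λ n - th n : ℝ) : ℂ) * c.ev n := by push_cast; ring
      have h6 := (hθ0 n).2.1
      rw [e, norm_mul, Complex.norm_real, Real.norm_of_nonneg (by linarith)]
      exact mul_le_of_le_one_right (by linarith) (c.χ.norm_le_one _)
    · refine Finset.sum_le_sum_of_subset_of_nonneg (Finset.Ioc_subset_Ioc_left (Nat.zero_le x)) ?_
      intro n _ _
      have h6 := (hθ0 n).2.1
      linarith
  have hdiff : psC c y - psC c x = ∑ n ∈ Ioc x y, ((Λ n : ℝ) : ℂ) * c.ev n := by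
    rw [psC, psC, ← Finset.sum_Ioc_consecutive _ (Nat.zero_le x) (show x ≤ y by omega)]
    ring
  have hid : ∑ n ∈ Ioc x y, (((th n : ℝ) : ℂ) * c.ev n - ((mwt o c n : ℝ) : ℂ)) =
      ((psC c y - psC c x) - (if c.χ = 1 then (l : ℂ) else 0) +
        ∑ ρ ∈ Rz c η X 0, (mz c ρ : ℂ) * (fA k ρ * fB x y ρ)) -
      ((∑ n ∈ Ioc x y, ((mwt o c n : ℝ) : ℂ)) - (if c.χ = 1 then (l : ℂ) else 0) +
        ∑ ρ ∈ Rz c η X 0, (mz c ρ : ℂ) * (fA k ρ * fB x y ρ)) -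
      ∑ n ∈ Ioc x y, (((Λ n : ℝ) : ℂ) * c.ev n - ((th n : ℝ) : ℂ) * c.ev n) := by
    rw [hdiff, Finset.sum_sub_distrib, Finset.sum_sub_distrib]
    ring
  rw [hid]
  refine (norm_sub_le _ _).trans ?_
  refine (add_le_add ((norm_sub_le _ _).trans (add_le_add hcore htwo)) hpp).trans ?_
  -- estimates
  set Ω : ℝ := X ^ (-(η / 10)) with hΩ
  have hΩ0 : 0 < Ω := by positivity
  have hlogy : Real.log y ≤ K * Real.log X := by
    have := Real.log_le_log hy0 hy2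
    rwa [Real.log_rpow hX0] at this
  have hlogy0 : 0 ≤ Real.log y := Real.log_nonneg (by linarith)
  have hlog2 : Real.log (2 * y) ≤ 1 + K * Real.log X := by
    rw [Real.log_mul (by norm_num) hy0.ne']
    have := Real.log_two_lt_d9
    linarith
  have hkΩ : k * (20 * K * (Real.log X + 1)) ≤ Ω := by
    have e : Ω = k * X ^ (3 * η / 100) := by
      rw [hΩ, hk, ← Real.rpow_add hX0]
      congr 1
      ring
    rw [e]
    exact mul_le_mul_of_nonneg_left h1 hk0.le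
  have t1 : l * k + 2 * (k * y * Real.log (2 * y)) + 16 * (y * X ^ (-(13 * η / 50)) / k) + l * k ≤
      y * Ω := by
    rw [mul_div_assoc, hεk]
    have hly : (l : ℝ) ≤ y := by linarith
    have e1 : l * k + 2 * (k * y * Real.log (2 * y)) + 16 * (y * k) + l * k ≤
        y * (k * (20 * K * (Real.log X + 1))) := by
      have h7 : l * k ≤ y * k := mul_le_mul_of_nonneg_right hly hk0.le
      have h8 : k * y * Real.log (2 * y) ≤ k * y * (1 + K * Real.log X) :=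
        mul_le_mul_of_nonneg_left hlog2 (by positivity)
      have h9 : 18 + 2 * (1 + K * Real.log X) ≤ 20 * K * (Real.log X + 1) := by nlinarith
      have h10 := mul_le_mul_of_nonneg_left h9 (show 0 ≤ k * y by positivity)
      nlinarith
    exact e1.trans (mul_le_mul_of_nonneg_left hkΩ hy0.le)
  have t2 : 1 ≤ y * Ω := by
    calc (1 : ℝ) ≤ X ^ (3 / 5 : ℝ) * Ω := by
          rw [hΩ, ← Real.rpow_add hX0]
          exact Real.one_le_rpow hX1 (by linarith)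
      _ ≤ y * Ω := mul_le_mul_of_nonneg_right hy1 hΩ0.le
  have t3 : Cθ * √y * Real.log y ^ 2 ≤ y * Ω := by
    have hsy : 0 < √(y : ℝ) := Real.sqrt_pos.2 hy0
    have e1 : (y : ℝ) = √y * √y := (Real.mul_self_sqrt hy0.le).symm
    have e2 : X ^ (3 / 10 : ℝ) ≤ √(y : ℝ) := by
      rw [Real.sqrt_eq_rpow, show (3 / 10 : ℝ) = 3 / 5 * (1 / 2) by norm_num, Real.rpow_mul hX0.le]
      exact Real.rpow_le_rpow (by positivity) hy1 (by norm_num)
    have e3 : Cθ * Real.log y ^ 2 ≤ X ^ (3 / 10 : ℝ) * Ω := by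
      have h11 : Cθ * Real.log y ^ 2 ≤ ((Cθ + 1) * K * (Real.log X + 1)) ^ 2 := by
        have a1 : Real.log y ^ 2 ≤ (K * (Real.log X + 1)) ^ 2 := by
          refine pow_le_pow_left₀ hlogy0 (hlogy.trans ?_) 2
          nlinarith
        have a2 : Cθ ≤ (Cθ + 1) ^ 2 := by nlinarith
        calc Cθ * Real.log y ^ 2 ≤ (Cθ + 1) ^ 2 * (K * (Real.log X + 1)) ^ 2 :=
              mul_le_mul a2 a1 (by positivity) (by positivity)
          _ = _ := by ring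
      have h12 : ((Cθ + 1) * K * (Real.log X + 1)) ^ 2 ≤ (X ^ (1 / 10 : ℝ)) ^ 2 :=
        pow_le_pow_left₀ (by positivity) h2 2
      refine h11.trans (h12.trans ?_)
      rw [← Real.rpow_natCast, ← Real.rpow_mul hX0.le, hΩ, ← Real.rpow_add hX0]
      refine Real.rpow_le_rpow_of_exponent_le hX1 ?_
      push_cast
      linarith
    calc Cθ * √y * Real.log y ^ 2 = √y * (Cθ * Real.log y ^ 2) := by ring
      _ ≤ √y * (X ^ (3 / 10 : ℝ) * Ω) := mul_le_mul_of_nonneg_left e3 hsy.le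
      _ ≤ √y * (√y * Ω) := by
          refine mul_le_mul_of_nonneg_left ?_ hsy.le
          exact mul_le_mul_of_nonneg_right e2 hΩ0.le
      _ = y * Ω := by rw [← mul_assoc, ← e1]
  linarith

theorem hInt (hPsk : StPsk) (hTh : StTh) (hFin : StFin) : StInt := by
  classical
  obtain ⟨hθ0, Cθ, hCθ, hθ⟩ := hTh
  obtain ⟨η₁, hη₁, hη₁', HP⟩ := hPsk
  refine ⟨η₁, hη₁, hη₁', fun η hη hη1 K hK => ?_⟩
  have hη2 : η ≤ 1 / 100 := hη1.trans hη₁'
  obtain ⟨X1, hX1, H1⟩ := HP η hη hη1 (2 * K) (by linarith)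
  have hev : ∀ᶠ X : ℝ in atTop, 20 * K * (Real.log X + 1) ≤ X ^ (3 * η / 100) ∧
      (Cθ + 1) * K * (Real.log X + 1) ≤ X ^ (1 / 10 : ℝ) ∧
      6 * (Real.log X + 1) ≤ X ^ (1 / 20 : ℝ) ∧ 10 ≤ X := by
    filter_upwards [int_ev (by positivity : 0 < 3 * η / 100) (20 * K),
      int_ev (by norm_num : (0 : ℝ) < 1 / 10) ((Cθ + 1) * K),
      int_ev (by norm_num : (0 : ℝ) < 1 / 20) 6, eventually_ge_atTop (10 : ℝ)] with X a b c d
      using ⟨a, b, c, d⟩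
  obtain ⟨X2, hX2⟩ := eventually_atTop.1 hev
  refine ⟨4, max X1 X2, by norm_num, hX1.trans (le_max_left _ _), ?_⟩
  intro X o c x l hX hok hcr hy1 hy2
  obtain ⟨d1, d2, d3, d4⟩ := hX2 X ((le_max_right _ _).trans hX)
  have hpsk : ∀ x : ℝ, √X ≤ x → x ≤ X ^ (2 * K) →
      ‖Ps c 0 x - (if c.χ = 1 then (x : ℂ) else 0) +
        ∑ ρ ∈ Rz c η X 0, (mz c ρ : ℂ) * (x : ℂ) ^ ρ / ρ ^ 2‖ ≤ x * X ^ (-(13 * η / 50)) :=
    fun x h1 h2 => H1 X c x ((le_max_left _ _).trans hX) hcr h1 h2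
  have hX0 : 0 < X := by linarith
  have hX1' : 1 ≤ X := by linarith
  have hZ := int_ZS o c (2 * η) X (√X) (Real.sqrt_nonneg X)
  have hl0 : (0 : ℝ) ≤ l := Nat.cast_nonneg _
  have hΩ0 : 0 < X ^ (-(η / 10)) := by positivity
  have hy0 : (0 : ℝ) ≤ ((x + l : ℕ) : ℝ) := Nat.cast_nonneg _
  rcases le_or_gt (√X) x with hx | hx
  · refine (int_case hFin hCθ hθ0 hθ hη hη2 hK d4 d1 d2 o c hok hpsk x l hx hy1 hy2).trans ?_
    have : 0 ≤ ((x + l : ℕ) : ℝ) * X ^ (-(η / 10)) := by positivity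
    have : 0 ≤ l * ZS o c (2 * η) X (√X) := mul_nonneg hl0 hZ
    linarith
  · -- the remaining case
    set x' : ℕ := ⌈√X⌉₊ with hx'
    have hsX : 3 ≤ √X := by
      rw [Real.le_sqrt (by norm_num) hX0.le]
      linarith
    have hx'1 : √X ≤ x' := Nat.le_ceil _
    have hx'2 : (x' : ℝ) ≤ √X + 1 := (Nat.ceil_lt_add_one (Real.sqrt_nonneg X)).le
    have hLX : 0 ≤ Real.log X := Real.log_nonneg hX1'
    have hxx' : x ≤ x' := by
      have : (x : ℝ) ≤ x' := hx.le.trans hx'1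
      exact_mod_cast this
    have hsq : √X * X ^ (1 / 10 : ℝ) = X ^ (3 / 5 : ℝ) := by
      rw [Real.sqrt_eq_rpow, ← Real.rpow_add hX0]
      norm_num
    have h20 : 2 ≤ X ^ (1 / 20 : ℝ) := by linarith
    have h10 : 2 ≤ X ^ (1 / 10 : ℝ) := by
      refine h20.trans (Real.rpow_le_rpow_of_exponent_le hX1' (by norm_num))
    have hx'y : x' ≤ x + l := by
      have : (x' : ℝ) ≤ ((x + l : ℕ) : ℝ) := by
        refine hx'2.trans (le_trans ?_ hy1)
        rw [← hsq]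
        nlinarith
      exact_mod_cast this
    have hyy : x' + (x + l - x') = x + l := by omega
    have hc2 := int_case hFin hCθ hθ0 hθ hη hη2 hK d4 d1 d2 o c hok hpsk x' (x + l - x') hx'1
      (by rw [hyy]; exact hy1) (by rw [hyy]; exact hy2)
    rw [hyy] at hc2
    rw [← Finset.sum_Ioc_consecutive _ hxx' hx'y]
    refine (norm_add_le _ _).trans ?_
    have hfirst : ‖∑ n ∈ Ioc x x', (((th n : ℝ) : ℂ) * c.ev n - ((mwt o c n : ℝ) : ℂ))‖ ≤
        ((x + l : ℕ) : ℝ) * X ^ (-(η / 10)) := by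
      refine (norm_sum_le _ _).trans ?_
      have hb : ∀ n ∈ Ioc x x', ‖((th n : ℝ) : ℂ) * c.ev n - ((mwt o c n : ℝ) : ℂ)‖ ≤
          Real.log X + 2 := by
        intro n hn
        obtain ⟨h1, h2⟩ := Finset.mem_Ioc.1 hn
        have hn1 : 1 ≤ n := by omega
        have hn0 : (0 : ℝ) < n := by exact_mod_cast hn1
        refine (norm_sub_le _ _).trans (add_le_add ?_ ?_)
        · rw [norm_mul, Complex.norm_real, Real.norm_of_nonneg (hθ0 n).1]
          refine (mul_le_of_le_one_right (hθ0 n).1 (c.χ.norm_le_one _)).trans ?_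
          refine ((hθ0 n).2.2).trans (Real.log_le_log hn0 ?_)
          have : (n : ℝ) ≤ x' := by exact_mod_cast h2
          have h5 : X = √X * √X := (Real.mul_self_sqrt hX0.le).symm
          nlinarith
        · rw [Complex.norm_real, Real.norm_eq_abs]
          exact int_mwt_le o c hok hn1
      refine (Finset.sum_le_sum hb).trans ?_
      rw [Finset.sum_const, Nat.card_Ioc, nsmul_eq_mul]
      have hcard : ((x' - x : ℕ) : ℝ) ≤ 2 * √X := by
        have : ((x' - x : ℕ) : ℝ) ≤ x' := by exact_mod_cast Nat.sub_le _ _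
        linarith
      calc ((x' - x : ℕ) : ℝ) * (Real.log X + 2) ≤ 2 * √X * (Real.log X + 2) :=
            mul_le_mul_of_nonneg_right hcard (by linarith)
        _ ≤ √X * (6 * (Real.log X + 1)) := by nlinarith [Real.sqrt_nonneg X]
        _ ≤ √X * X ^ (1 / 20 : ℝ) := mul_le_mul_of_nonneg_left d3 (Real.sqrt_nonneg X)
        _ ≤ X ^ (3 / 5 : ℝ) * X ^ (-(η / 10)) := by
            rw [Real.sqrt_eq_rpow, ← Real.rpow_add hX0, ← Real.rpow_add hX0]
            exact Real.rpow_le_rpow_of_exponent_le hX1' (by linarith)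
        _ ≤ _ := mul_le_mul_of_nonneg_right hy1 hΩ0.le
    have hl' : ((x + l - x' : ℕ) : ℝ) ≤ l := by
      have : x + l - x' ≤ l := by omega
      exact_mod_cast this
    have h7 := mul_le_mul_of_nonneg_right hl' hZ
    have h8 : 0 ≤ l * ZS o c (2 * η) X (√X) := mul_nonneg hl0 hZ
    calc _ ≤ ((x + l : ℕ) : ℝ) * X ^ (-(η / 10)) +
          (2 * ((x + l - x' : ℕ) : ℝ) * ZS o c (2 * η) X (√X) +
            3 * (((x + l : ℕ) : ℝ) * X ^ (-(η / 10)))) := add_le_add hfirst hc2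
      _ ≤ _ := by linarith

end Pool.Agent.Helper23.PB
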